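import Mathlib
import Pool.Agent.Work.MP_d3656f_al.DefsI

/-!
# N/MatH : the matrix on the first homology

`abz k (Φ x) = Σ_l (abz l x) * matH Φ l k` for all `x` (both sides are homomorphisms in `x`, check on
the generators `x = sg j`, `abz l (sg j) = δ_{jl}`). Hence
`matH (Φ * Ψ) j k = abz k (Φ (Ψ (sg j))) = Σ_l (matH Ψ j l) (matH Φ l k)`.
`matH (conj γ) = 1` because `ℤ` is commutative.
-/

set_option autoImplicit false

namespace Pool.Agent.Work.MP_d3656f_al

private theorem mh_abz {g : ℕ} (j k : Fin g ⊕ Fin g) :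
    Multiplicative.toAdd (abz k (sg j)) = if j = k then (1 : ℤ) else 0 := by
  rw [abz, sg, PresentedGroup.toGroup.of]
  rfl

private theorem mh_key {g : ℕ} (Φ : MulAut (SG g)) (k : Fin g ⊕ Fin g) (x : SG g) :
    Multiplicative.toAdd (abz k (Φ x))
      = ∑ l, Multiplicative.toAdd (abz l x) * matH Φ l k := by
  let f1 : SG g →* Multiplicative ℤ := (abz k).comp Φ.toMonoidHom
  let f2 : SG g →* Multiplicative ℤ := ∏ l, (abz l) ^ (matH Φ l k)
  have hf2 : ∀ y, Multiplicative.toAdd (f2 y)
      = ∑ l, Multiplicative.toAdd (abz l y) * matH Φ l k := by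
    intro y
    have h1 : f2 y = ∏ l, (abz l y) ^ (matH Φ l k) := by
      simp only [f2, MonoidHom.finsetProd_apply]
      rfl
    rw [h1, toAdd_prod]
    refine Finset.sum_congr rfl fun l _ => ?_
    rw [toAdd_zpow, smul_eq_mul, mul_comm]
  have h : f1 = f2 := by
    refine PresentedGroup.ext fun j => ?_
    apply Multiplicative.toAdd.injective
    change Multiplicative.toAdd (abz k (Φ (sg j))) = Multiplicative.toAdd (f2 (sg j))
    rw [hf2]
    simp only [mh_abz, ite_mul, one_mul, zero_mul, Finset.sum_ite_eq, Finset.mem_univ, if_true]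
    rfl
  have h2 := congrArg Multiplicative.toAdd (DFunLike.congr_fun h x)
  rw [hf2] at h2
  exact h2

theorem matH_one {g : ℕ} : matH (1 : MulAut (SG g)) = 1 := by
  ext j k
  rw [Matrix.one_apply]
  exact mh_abz j k

theorem matH_mul {g : ℕ} (Φ Ψ : MulAut (SG g)) : matH (Φ * Ψ) = matH Ψ * matH Φ := by
  ext j k
  rw [Matrix.mul_apply]
  exact mh_key Φ k (Ψ (sg j))

theorem matH_pow {g : ℕ} (Φ : MulAut (SG g)) (n : ℕ) : matH (Φ ^ n) = matH Φ ^ n := by
  induction n with
  | zero => rw [pow_zero, pow_zero, matH_one]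
  | succ n ih => rw [pow_succ, matH_mul, ih, ← pow_succ']

theorem matH_conj {g : ℕ} (γ : SG g) : matH (MulAut.conj γ) = 1 := by
  ext j k
  rw [Matrix.one_apply]
  change Multiplicative.toAdd (abz k (MulAut.conj γ (sg j))) = _
  have h : abz k (MulAut.conj γ (sg j)) = abz k (sg j) := by
    rw [MulAut.conj_apply, map_mul (abz k), map_mul (abz k), map_inv (abz k), mul_comm,
      inv_mul_cancel_left]
  rw [h]
  exact mh_abz j k

theorem matH_det {g : ℕ} (Φ : MulAut (SG g)) : IsUnit (matH Φ).det := by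
  rw [← Matrix.isUnit_iff_isUnit_det]
  exact IsUnit.of_mul_eq_one (matH Φ⁻¹) (by rw [← matH_mul, inv_mul_cancel, matH_one])

theorem matH_trace_one {g : ℕ} :
    (1 : Matrix (Fin g ⊕ Fin g) (Fin g ⊕ Fin g) ℤ).trace = 2 * g := by
  rw [Matrix.trace_one, Fintype.card_sum, Fintype.card_fin]
  push_cast
  ring

end Pool.Agent.Work.MP_d3656f_al
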