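import Mathlib

/-!
# N/Tr2 : powers with trace larger than 2

`no_neg`: for an integral (or real) square matrix `N` it is impossible that `tr (N^j) < 0` for all
`j ≥ 1`. Proof: let `D(t) = det (1 - t N) = Σ_k c_k t^k`, a polynomial of degree at most `m` with
`c_0 = 1`. Newton: `k c_k = - Σ_{i=1}^{k} c_{k-i} tr (N^i)` for all `k ≥ 1` (from
`D'(t) = - D(t) Σ_{i ≥ 1} tr (N^i) t^(i-1)`; or over the complex numbers from
`MvPolynomial.mul_esymm_eq_sum` evaluated at the eigenvalues). By induction all `c_k > 0`: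
contradiction for `k = m + 1`.

`trace_gt`: let `r` be a prime `> m = card ι`. The image of `M` in the finite group
`GL_m(ZMod r)` has finite order `k0 ≥ 1`, so `N = M^k0` satisfies `N^j ≡ 1 mod r`, in particular
`tr (N^j) ≡ m mod r` for all `j`. If all traces `tr (M^k)`, `k ≥ 1`, were `≤ 2 < m`, then
`tr (N^j) ≤ 2 < m` and `tr (N^j) ≡ m (mod r)` give `tr (N^j) ≤ m - r < 0` for all `j ≥ 1`,
contradicting `no_neg`.
-/

set_option autoImplicit false

namespace Pool.Agent.Work.MP_d3656f_al

open Polynomial in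
private theorem tt_jacobi {ι : Type} [Fintype ι] [DecidableEq ι] (A : Matrix ι ι ℤ[X]) :
    derivative A.det = (A.map derivative * A.adjugate).trace := by
  have h1 : ∀ i, (A.map derivative * A.adjugate) i i
      = (A.updateRow i (fun j => derivative (A i j))).det := by
    intro i
    rw [← Matrix.cramer_transpose_apply, Matrix.cramer_eq_adjugate_mulVec,
      ← Matrix.adjugate_transpose, Matrix.mulVec, Matrix.mul_apply]
    simp only [dotProduct, Matrix.transpose_apply, Matrix.map_apply]
    exact Finset.sum_congr rfl fun j _ => mul_comm _ _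
  rw [Matrix.trace]
  simp only [Matrix.diag_apply, h1]
  simp only [Matrix.det_apply]
  rw [derivative_sum, Finset.sum_comm]
  refine Finset.sum_congr rfl fun σ _ => ?_
  rw [derivative_smul, derivative_prod_finset, ← Finset.smul_sum]
  congr 1
  -- the product over columns `i`, entries `A (σ i) i`
  conv_rhs => rw [← Equiv.sum_comp σ]
  refine Finset.sum_congr rfl fun i _ => ?_
  rw [← Finset.mul_prod_erase Finset.univ
    (fun j => (A.updateRow (σ i) (fun j => derivative (A (σ i) j))) (σ j) j) (Finset.mem_univ i),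
    Matrix.updateRow_self, mul_comm]
  congr 1
  refine Finset.prod_congr rfl fun j hj => ?_
  rw [Matrix.updateRow_ne]
  intro h
  exact (Finset.ne_of_mem_erase hj) (σ.injective h)

open Polynomial in
theorem no_neg {ι : Type} [Fintype ι] [DecidableEq ι] (N : Matrix ι ι ℤ) :
    ∃ j : ℕ, 1 ≤ j ∧ 0 ≤ (N ^ j).trace := by
  by_contra hcon
  push Not at hcon
  set A : Matrix ι ι ℤ[X] := 1 - (X : ℤ[X]) • N.map C with hA
  set D : ℤ[X] := A.det with hD
  set B : ℕ → Matrix ι ι ℤ := fun k => Matrix.of fun i j => (A.adjugate i j).coeff k with hB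
  have hNB : ∀ k i j, ((N.map C * A.adjugate) i j).coeff k = (N * B k) i j := by
    intro k i j
    rw [Matrix.mul_apply, Matrix.mul_apply, finsetSum_coeff]
    refine Finset.sum_congr rfl fun l _ => ?_
    rw [Matrix.map_apply, coeff_C_mul]
    rfl
  have hadj : A.adjugate = D • (1 : Matrix ι ι ℤ[X]) + (X : ℤ[X]) • (N.map C * A.adjugate) := by
    have h := Matrix.mul_adjugate A
    rw [← hD] at h
    rw [← h]
    conv_rhs => rw [hA]
    rw [← hA, sub_mul, one_mul, smul_mul_assoc]
    abel
  have hD0 : D.coeff 0 = 1 := by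
    have := Matrix.eval_charpolyRev (M := N)
    rw [Matrix.charpolyRev, ← hA, ← hD] at this
    rw [coeff_zero_eq_eval_zero]; exact this
  have hB0 : B 0 = 1 := by
    ext i j
    have h := congrArg (fun P => coeff P 0) (congrFun (congrFun hadj i) j)
    simp only [Matrix.add_apply, Matrix.smul_apply, smul_eq_mul, coeff_add, mul_coeff_zero,
      coeff_X_zero, zero_mul, add_zero, hD0, one_mul] at h
    rw [hB]
    simp only [Matrix.of_apply]
    rw [h, Matrix.one_apply, Matrix.one_apply]
    split_ifs <;> simp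
  have hBs : ∀ k, B (k + 1) = D.coeff (k + 1) • (1 : Matrix ι ι ℤ) + N * B k := by
    intro k
    ext i j
    have h := congrArg (fun P => coeff P (k + 1)) (congrFun (congrFun hadj i) j)
    simp only [Matrix.add_apply, Matrix.smul_apply, smul_eq_mul, coeff_add, coeff_X_mul,
      hNB] at h
    rw [Matrix.add_apply, Matrix.smul_apply, smul_eq_mul, ← show (A.adjugate i j).coeff (k + 1)
      = B (k + 1) i j from rfl, h, Matrix.one_apply, Matrix.one_apply]
    split_ifs <;> simp
  have hder : ∀ k, D.coeff (k + 1) * ((k : ℤ) + 1) = -(N * B k).trace := by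
    intro k
    have h := tt_jacobi A
    have hAm : A.map derivative = - N.map C := by
      ext i j : 2
      rw [hA]
      simp only [Matrix.map_apply, Matrix.sub_apply, Matrix.smul_apply, smul_eq_mul,
        Matrix.neg_apply, Matrix.one_apply]
      split_ifs <;> simp
    rw [hAm, neg_mul, Matrix.trace_neg, ← hD] at h
    have h2 := congrArg (fun P => coeff P k) h
    simp only [coeff_derivative, coeff_neg, Matrix.trace, Matrix.diag_apply,
      finsetSum_coeff, hNB] at h2
    exact_mod_cast h2
  have key : ∀ k, 0 < D.coeff k ∧ ∀ j, 1 ≤ j → (N ^ j * B k).trace < 0 := by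
    intro k
    induction k with
    | zero =>
      refine ⟨by rw [hD0]; norm_num, fun j hj => ?_⟩
      rw [hB0, mul_one]
      exact hcon j hj
    | succ k ih =>
      have h1 : 0 < D.coeff (k + 1) := by
        have h := hder k
        have h2 := ih.2 1 le_rfl
        rw [pow_one] at h2
        have h3 : 0 < D.coeff (k + 1) * ((k : ℤ) + 1) := by rw [h]; omega
        by_contra hneg
        have h4 : D.coeff (k + 1) ≤ 0 := by omega
        have h5 : (0 : ℤ) ≤ (k : ℤ) + 1 := by positivity
        nlinarith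
      refine ⟨h1, fun j hj => ?_⟩
      rw [hBs, mul_add, Matrix.trace_add, ← mul_assoc, ← pow_succ, mul_smul_comm, mul_one,
        Matrix.trace_smul, smul_eq_mul]
      have h4 := ih.2 (j + 1) (by omega)
      have h5 := hcon j hj
      nlinarith
  have hlast := (key (D.natDegree + 1)).1
  rw [coeff_eq_zero_of_natDegree_lt (Nat.lt_succ_self _)] at hlast
  exact lt_irrefl _ hlast

theorem trace_gt {ι : Type} [Fintype ι] [DecidableEq ι] (M : Matrix ι ι ℤ) (hM : IsUnit M.det)
    (hc : 3 ≤ Fintype.card ι) : ∃ k : ℕ, 1 ≤ k ∧ 2 < (M ^ k).trace := by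
  by_contra hcon
  push Not at hcon
  obtain ⟨r, hr, hrp⟩ := Nat.exists_infinite_primes (Fintype.card ι + 1)
  have : Fact r.Prime := ⟨hrp⟩
  set f : Matrix ι ι ℤ →+* Matrix ι ι (ZMod r) := (Int.castRingHom (ZMod r)).mapMatrix with hf
  have hMu : IsUnit M := (Matrix.isUnit_iff_isUnit_det M).2 hM
  obtain ⟨u, hu⟩ := hMu.map f
  obtain ⟨k0, hk0, hk⟩ : ∃ k0 : ℕ, 0 < k0 ∧ u ^ k0 = 1 := by
    have := isOfFinOrder_of_finite u
    exact (isOfFinOrder_iff_pow_eq_one).1 this
  have hfk : f (M ^ k0) = 1 := by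
    rw [map_pow, ← hu, ← Units.val_pow_eq_pow_val, hk, Units.val_one]
  obtain ⟨j, hj, hjt⟩ := no_neg (M ^ k0)
  have hle : ((M ^ k0) ^ j).trace ≤ 2 := by
    rw [← pow_mul]
    exact hcon _ (Nat.mul_pos hk0 hj)
  have hmod : (((M ^ k0) ^ j).trace : ZMod r) = ((Fintype.card ι : ℤ) : ZMod r) := by
    have h1 : f ((M ^ k0) ^ j) = 1 := by rw [map_pow, hfk, one_pow]
    have h2 : (f ((M ^ k0) ^ j)).trace = (((M ^ k0) ^ j).trace : ZMod r) := by
      rw [hf, RingHom.mapMatrix_apply]
      simp only [Matrix.trace, Matrix.diag_apply, Matrix.map_apply]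
      push_cast
      rfl
    rw [← h2, h1, Matrix.trace_one]
    push_cast
    rfl
  rw [ZMod.intCast_eq_intCast_iff_dvd_sub] at hmod
  obtain ⟨q, hq⟩ := hmod
  have hr' : (Fintype.card ι : ℤ) + 1 ≤ r := by exact_mod_cast hr
  have hc' : (3 : ℤ) ≤ Fintype.card ι := by exact_mod_cast hc
  have hq1 : 1 ≤ q := by
    by_contra hq0
    have : q ≤ 0 := by omega
    have hrn : (0 : ℤ) ≤ r := by omega
    nlinarith
  nlinarith

end Pool.Agent.Work.MP_d3656f_al
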