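import Mathlib

/-!
# N/Mink : the kernel of reduction modulo 3 is torsion free (Minkowski)

Suppose `M ≠ 1`, `M ≡ 1 mod 3`, `M^m = 1`, `m > 0`. Replacing `M` by a power we may assume that
`M` has prime order `p` (still `M ≡ 1 mod 3`). Write `M = 1 + 3^s N`, `s ≥ 1`, `3 ∤ N`. Then
`0 = M^p - 1 = Σ_{k ≥ 1} C(p,k) 3^(sk) N^k`. If `p ≠ 3`, divide by `3^s`: `p N ≡ 0 mod 3`, so
`N ≡ 0 mod 3`. If `p = 3`, `3^(s+1) N + 3^(2s+1) N^2 + 3^(3s) N^3 = 0`, divide by `3^(s+1)`:
`N ≡ 0 mod 3` (`s ≥ 1`, `2 s - 1 ≥ 1`). A contradiction in both cases.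
-/

set_option autoImplicit false

namespace Pool.Agent.Work.MP_d3656f_al

private theorem mk_exp {R : Type} [Ring R] (x : R) (n : ℕ) :
    ∃ Q : R, (1 + x) ^ n = 1 + (n : R) * x + x * x * Q := by
  induction n with
  | zero => exact ⟨0, by simp⟩
  | succ n ih =>
    obtain ⟨Q, hQ⟩ := ih
    refine ⟨(n : R) + Q + Q * x, ?_⟩
    rw [pow_succ, hQ]
    have hc : (n : R) * x * x = x * x * (n : R) := by
      rw [mul_assoc]; exact (Nat.cast_commute n (x * x)).eq
    push_cast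
    have e : (1 + (n : R) * x + x * x * Q) * (1 + x)
        = 1 + ((n : R) * x + x) + ((n : R) * x * x + x * x * Q + x * x * Q * x) := by noncomm_ring
    rw [e, hc]
    noncomm_ring

private theorem mk_step {ι : Type} [Fintype ι] [DecidableEq ι] (A : Matrix ι ι ℤ) (p : ℕ)
    (hp : p.Prime) (h : (1 + A) ^ p = 1) (s : ℕ) (hs : 1 ≤ s) (N : Matrix ι ι ℤ)
    (hN : A = (3 : ℤ) ^ s • N) : ∀ i j, (3 : ℤ) ∣ N i j := by
  obtain ⟨s, rfl⟩ : ∃ t, s = t + 1 := ⟨s - 1, by omega⟩
  by_cases hp3 : p = 3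
  · subst hp3
    have e : (1 + A) ^ 3 - 1 = (3 : ℤ) ^ (s + 2) • (N + (3 : ℤ) • ((3 : ℤ) ^ s • (N * N)
        + ((3 : ℤ) ^ (2 * s)) • (N * N * N))) := by
      have e1 : (1 + A) ^ 3 - 1 = (3 : ℤ) • A + (3 : ℤ) • (A * A) + A * A * A := by noncomm_ring
      rw [e1, hN]
      simp only [smul_add, smul_mul_assoc, mul_smul_comm, smul_smul]
      rw [add_assoc]
      congr 1
      · congr 1; ring
      · congr 1
        · congr 1; ring
        · congr 1; ring
    rw [h, sub_self] at e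
    have e2 : N + (3 : ℤ) • ((3 : ℤ) ^ s • (N * N) + ((3 : ℤ) ^ (2 * s)) • (N * N * N)) = 0 := by
      have := e.symm
      rcases smul_eq_zero.1 this with h0 | h0
      · exact absurd h0 (by positivity)
      · exact h0
    intro i j
    have e3 := congrFun (congrFun e2 i) j
    simp only [Matrix.add_apply, Matrix.smul_apply, smul_eq_mul, Matrix.zero_apply] at e3
    exact ⟨-((3 : ℤ) ^ s * (N * N) i j + (3 : ℤ) ^ (2 * s) * (N * N * N) i j), by linarith⟩
  · obtain ⟨Q, hQ⟩ := mk_exp A p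
    rw [h, hN] at hQ
    have e : (3 : ℤ) ^ (s + 1) • ((p : ℤ) • N + (3 : ℤ) • ((3 : ℤ) ^ s • (N * N * Q))) = 0 := by
      have e1 : (3 : ℤ) ^ (s + 1) • ((p : ℤ) • N + (3 : ℤ) • ((3 : ℤ) ^ s • (N * N * Q)))
          = ((p : Matrix ι ι ℤ) * ((3 : ℤ) ^ (s + 1) • N)
            + ((3 : ℤ) ^ (s + 1) • N) * ((3 : ℤ) ^ (s + 1) • N) * Q) := by
        have hp1 : (p : Matrix ι ι ℤ) * ((3 : ℤ) ^ (s + 1) • N)
            = (p : ℤ) • ((3 : ℤ) ^ (s + 1) • N) := by
          rw [zsmul_eq_mul]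
          simp
        rw [hp1]
        simp only [smul_add, smul_mul_assoc, mul_smul_comm, smul_smul]
        congr 1
        · congr 1; ring
        · congr 1; ring
      rw [e1]
      have := hQ.symm
      rw [add_assoc] at this
      exact add_eq_left.1 this
    rcases smul_eq_zero.1 e with h0 | h0
    · exact absurd h0 (by positivity)
    · intro i j
      have e3 := congrFun (congrFun h0 i) j
      simp only [Matrix.add_apply, Matrix.smul_apply, smul_eq_mul, Matrix.zero_apply] at e3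
      have h4 : (3 : ℤ) ∣ (p : ℤ) * N i j :=
        ⟨-((3 : ℤ) ^ s * (N * N * Q) i j), by linarith⟩
      have hcop : IsCoprime (3 : ℤ) (p : ℤ) := by
        rw [Int.isCoprime_iff_gcd_eq_one]
        have := (Nat.coprime_primes Nat.prime_three hp).2 (Ne.symm hp3)
        simpa [Int.gcd] using this
      exact hcop.dvd_of_dvd_mul_left h4

private theorem mk_prime {ι : Type} [Fintype ι] [DecidableEq ι] (A : Matrix ι ι ℤ) (p : ℕ)
    (hp : p.Prime) (h : (1 + A) ^ p = 1) (h3 : ∀ i j, (3 : ℤ) ∣ A i j) : A = 0 := by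
  have key : ∀ s : ℕ, ∀ i j, (3 : ℤ) ^ (s + 1) ∣ A i j := by
    intro s
    induction s with
    | zero => simpa using h3
    | succ s ih =>
      choose N hN using ih
      have hA : A = (3 : ℤ) ^ (s + 1) • (Matrix.of fun i j => N i j) := by
        ext i j
        simp [hN i j]
      have := mk_step A p hp h (s + 1) (by omega) _ hA
      intro i j
      obtain ⟨c, hc⟩ := this i j
      refine ⟨c, ?_⟩
      rw [hN i j]
      have hc' : N i j = 3 * c := by simpa using hc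
      rw [hc']; ring
  ext i j
  by_contra hne
  have hne' : A i j ≠ 0 := by simpa using hne
  obtain ⟨n, hn⟩ : ∃ n : ℕ, |A i j| < (3 : ℤ) ^ n := by
    refine ⟨(A i j).natAbs, ?_⟩
    have := Nat.lt_pow_self (n := (A i j).natAbs) (by norm_num : 1 < 3)
    rw [Int.abs_eq_natAbs]
    exact_mod_cast this
  have h1 := Int.le_of_dvd (abs_pos.2 hne') ((dvd_abs _ _).2 (key n i j))
  have h2 : (3 : ℤ) ^ n ≤ 3 ^ (n + 1) := pow_le_pow_right₀ (by norm_num) (by omega)
  omega

private theorem mk_pow3 {ι : Type} [Fintype ι] [DecidableEq ι] (M : Matrix ι ι ℤ)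
    (h3 : ∀ i j, (3 : ℤ) ∣ (M - 1) i j) (p : ℕ) : ∀ i j, (3 : ℤ) ∣ (M ^ p - 1) i j := by
  choose N hN using h3
  have hM : M - 1 = (3 : ℤ) • (Matrix.of fun i j => N i j) := by
    ext i j
    simp [hN i j]
  have hdvd : ∃ Q, M ^ p - 1 = (M - 1) * Q := by
    obtain ⟨Q, hQ⟩ := mk_exp (M - 1) p
    refine ⟨(p : Matrix ι ι ℤ) + (M - 1) * Q, ?_⟩
    rw [add_sub_cancel] at hQ
    rw [hQ, (Nat.cast_commute p (M - 1)).eq, mul_add, mul_assoc]
    abel
  obtain ⟨Q, hQ⟩ := hdvd
  intro i j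
  rw [hQ, hM, smul_mul_assoc, Matrix.smul_apply, smul_eq_mul]
  exact dvd_mul_right _ _

theorem mink {ι : Type} [Fintype ι] [DecidableEq ι] (M : Matrix ι ι ℤ)
    (h3 : ∀ i j, (3 : ℤ) ∣ (M - 1) i j) (m : ℕ) (hm : 0 < m) (h : M ^ m = 1) : M = 1 := by
  induction m using Nat.strong_induction_on generalizing M with
  | _ m ih =>
    by_cases h1 : m = 1
    · subst h1; simpa using h
    · obtain ⟨p, hp, m', rfl⟩ := Nat.exists_prime_and_dvd h1
      have hm' : 0 < m' := Nat.pos_of_mul_pos_left hm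
      have hlt : m' < p * m' := by
        have := hp.two_le
        nlinarith
      have hMp : M ^ p = 1 := by
        refine ih m' hlt (M ^ p) (mk_pow3 M h3 p) hm' ?_
        rw [← pow_mul]; exact h
      have := mk_prime (M - 1) p hp (by rw [add_sub_cancel]; exact hMp) h3
      exact sub_eq_zero.1 this

end Pool.Agent.Work.MP_d3656f_al
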