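import Mathlib
import Pool.Agent.Work.MP_d3656f_al.I.IT
import Pool.Agent.Work.MP_d3656f_al.N.Mink
import Pool.Agent.Work.MP_d3656f_al.N.MatH
import Pool.Agent.Work.MP_d3656f_al.E.Faith
import Pool.Agent.Work.MP_d3656f_al.B.StepB

/-!
# N/Tors : torsion subgroups of the outer automorphism group are finite

`tors_triv`: let `Φ` be `OP`, `matH Φ ≡ 1 mod 3` and `(cls Φ)^k = 1` with `k > 0`. Then
`cls Φ = 1`. Proof: `Φ^k = conj γ` for some `γ` (`cls_eq_iff`), so `(matH Φ)^k = 1` (`matH_pow`,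
`matH_conj`) and `matH Φ = 1` by `mink`; its trace is `2 g > 2`, so by `index_thm` some lift
`Φ1 = conj δ * Φ` satisfies `Fix3`. `Φ1^k = conj γ'` (its class is `1`), `bact γ'` fixes the three
fixed points of `Φ1` (`bd_conj`, `bd_mul`), so `γ' = 1` by `three_fix` and `Φ1^k = 1`. In the
coordinate at a fixed point `a` (`coordH`, `Φ1` is `OP`) the order isomorphism `h Φ1` satisfies
`(h Φ1)^k = 1`, hence `h Φ1 = 1` (an increasing bijection of finite order is the identity: `h t > t`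
would give `h^k t > t`). So `bd Φ1` is the identity on `Bd`, `Φ1 = 1` by `faith`.

`tors_fin`: let all elements of `T` have finite order. To `x ∈ T` choose a lift `Φ x` and let
`F x = (whether Φ x is OP, matH (Φ x) mod 3)`, an element of a finite set. `F` is injective
on `T`: if `F x = F y` then `(Φ x) * (Φ y)⁻¹` is `OP` (`dich`; if both are `OR` the product of `Φ x`
with the inverse of `Φ y` is `OP`: `(Φ y)⁻¹` is `OR` too) and its matrix is `≡ 1 mod 3`
(`matH_mul`), its class `x y⁻¹ ∈ T` has finite order, so `x = y` by `tors_triv`.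
-/

set_option autoImplicit false

namespace Pool.Agent.Work.MP_d3656f_al

private theorem ord_pow_lt (f : ℝ ≃o ℝ) (t : ℝ) (h : t < f t) (n : ℕ) :
    t < (f ^ (n + 1)) t := by
  induction n with
  | zero => simpa using h
  | succ n ih =>
    rw [pow_succ']
    show t < f ((f ^ (n + 1)) t)
    exact h.trans (f.strictMono ih)

private theorem ord_pow_gt (f : ℝ ≃o ℝ) (t : ℝ) (h : f t < t) (n : ℕ) :
    (f ^ (n + 1)) t < t := by
  induction n with
  | zero => simpa using h
  | succ n ih =>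
    rw [pow_succ']
    show f ((f ^ (n + 1)) t) < t
    exact (f.strictMono ih).trans h

private theorem ord_id (f : ℝ ≃o ℝ) (k : ℕ) (hk : 0 < k) (h : f ^ k = 1) (t : ℝ) : f t = t := by
  obtain ⟨n, rfl⟩ : ∃ n, k = n + 1 := ⟨k - 1, by omega⟩
  have h1 : (f ^ (n + 1)) t = t := by rw [h]; rfl
  rcases lt_trichotomy (f t) t with h2 | h2 | h2
  · have := ord_pow_gt f t h2 n
    rw [h1] at this
    exact absurd this (lt_irrefl _)
  · exact h2
  · have := ord_pow_lt f t h2 n
    rw [h1] at this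
    exact absurd this (lt_irrefl _)

private theorem bd_pow_fix {G : Type} [Group G] (M : Model G) (Φ : MulAut G) {x : V}
    (hx : x ∈ Bd) (h : M.bd Φ x = x) (n : ℕ) : M.bd (Φ ^ n) x = x := by
  induction n with
  | zero => rw [pow_zero, M.bd_one hx]
  | succ n ih => rw [pow_succ, M.bd_mul _ _ hx, h, ih]

theorem tors_triv {g : ℕ} (hg : 2 ≤ g) (M : Model (SG g)) {Φ : MulAut (SG g)} (hop : M.OP Φ)
    (h3 : ∀ i j, (3 : ℤ) ∣ (matH Φ - 1) i j) (k : ℕ) (hk : 0 < k) (h : (cls Φ) ^ k = 1) :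
    cls Φ = 1 := by
  have h1 : cls (Φ ^ k) = cls (1 : MulAut (SG g)) := by rw [map_pow, h, map_one]
  obtain ⟨γ, hγ⟩ := (cls_eq_iff _ _).1 h1
  have hm : matH Φ ^ k = 1 := by
    have := congrArg matH hγ
    rw [matH_one, matH_mul, matH_conj, mul_one, matH_pow] at this
    exact this.symm
  have hM : matH Φ = 1 := mink _ h3 k hk hm
  have hex : ∃ δ, M.Fix3 (MulAut.conj δ * Φ) := by
    by_contra hc
    push Not at hc
    have := index_thm M hop hc
    rw [hM, matH_trace_one] at this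
    omega
  obtain ⟨δ, a, ha, b, hb, c, hc, hab, hbc, hac, fa, fb, fc⟩ := hex
  have hop1 : M.OP (MulAut.conj δ * Φ) := M.OP_mul (M.OP_conj δ) hop
  have hcl : cls (MulAut.conj δ * Φ) = cls Φ := ((cls_eq_iff _ _).2 ⟨δ, rfl⟩).symm
  generalize MulAut.conj δ * Φ = Φ1 at fa fb fc hop1 hcl
  have h2 : cls (1 : MulAut (SG g)) = cls (Φ1 ^ k) := by rw [map_one, map_pow, hcl, h]
  obtain ⟨γ', hγ'⟩ := (cls_eq_iff _ _).1 h2
  rw [mul_one] at hγ'
  have hfix : ∀ x ∈ Bd, M.bd Φ1 x = x → M.bact γ' x = x := by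
    intro x hx hf
    rw [← M.bd_conj γ' hx, ← hγ']
    exact bd_pow_fix M Φ1 hx hf k
  have hγ1 : γ' = 1 := M.three_fix ha hb hc hab hbc hac (hfix a ha fa) (hfix b hb fb)
    (hfix c hc fc)
  have hpow : Φ1 ^ k = 1 := by rw [hγ', hγ1, map_one]
  obtain ⟨f, hf⟩ := M.coordH ha
  have hΨ : f ⟨Φ1, hop1, fa⟩ ^ k = 1 := by
    rw [← map_pow]
    have : (⟨Φ1, hop1, fa⟩ : M.fixG ha) ^ k = 1 := Subtype.ext hpow
    rw [this, map_one]
  have hall : ∀ ξ ∈ Bd, M.bd Φ1 ξ = ξ := by
    intro ξ hξ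
    by_cases e : ξ = a
    · rw [e, fa]
    · obtain ⟨e1, e2⟩ := hf ⟨Φ1, hop1, fa⟩ ξ hξ e
      exact cX_inj ha (M.bd_mem _ hξ) hξ e1 e (by rw [e2, ord_id _ k hk hΨ])
  have h4 := M.faith hall
  rw [← hcl, h4, map_one]

theorem tors_fin {g : ℕ} (hg : 2 ≤ g) (M : Model (SG g)) (T : Subgroup (OutG (SG g)))
    (hT : ∀ x ∈ T, ∃ k : ℕ, 0 < k ∧ x ^ k = 1) : (T : Set (OutG (SG g))).Finite := by
  classical
  choose lift hlift using (cls_surj (G := SG g))
  let F : OutG (SG g) → Prop × (Fin g ⊕ Fin g → Fin g ⊕ Fin g → ZMod 3) := fun x =>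
    (M.OP (lift x), fun i j => ((matH (lift x) i j : ℤ) : ZMod 3))
  have key : ∀ x ∈ T, ∀ y ∈ T, F x = F y → x = y := by
    intro x hx y hy hxy
    have hF1 : M.OP (lift x) = M.OP (lift y) := congrArg Prod.fst hxy
    have hF2 : ∀ i j, ((matH (lift x) i j : ℤ) : ZMod 3) = ((matH (lift y) i j : ℤ) : ZMod 3) :=
      fun i j => congrFun (congrFun (congrArg Prod.snd hxy) i) j
    have hop : M.OP (lift x * (lift y)⁻¹) := by
      by_cases h : M.OP (lift x)
      · exact M.OP_mul h (M.OP_inv (hF1 ▸ h))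
      · have hy' : ¬ M.OP (lift y) := hF1 ▸ h
        have hRx : M.OR (lift x) := (M.dich _).resolve_left h
        have hRy : M.OR (lift y)⁻¹ := by
          refine (M.dich _).resolve_left fun h' => hy' ?_
          have := M.OP_inv h'
          rwa [inv_inv] at this
        intro a ha b hb c hc hpos
        have e1 := hRy a ha b hb c hc hpos
        have e2 : 0 < det3 (M.bd (lift y)⁻¹ b) (M.bd (lift y)⁻¹ a) (M.bd (lift y)⁻¹ c) := by
          rw [det3_swap]; linarith
        have e3 := hRx _ (M.bd_mem _ hb) _ (M.bd_mem _ ha) _ (M.bd_mem _ hc) e2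
        rw [det3_swap] at e3
        rw [M.bd_mul _ _ ha, M.bd_mul _ _ hb, M.bd_mul _ _ hc]
        linarith
    have hmat : ∀ i j, (3 : ℤ) ∣ (matH (lift x * (lift y)⁻¹) - 1) i j := by
      intro i j
      have h1 : matH ((lift y)⁻¹) * matH (lift y) = 1 := by
        rw [← matH_mul, mul_inv_cancel, matH_one]
      have h2 : matH (lift x * (lift y)⁻¹) - 1
          = matH ((lift y)⁻¹) * (matH (lift x) - matH (lift y)) := by
        rw [matH_mul, mul_sub, h1]
      rw [h2, Matrix.mul_apply]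
      refine Finset.dvd_sum fun l _ => Dvd.dvd.mul_left ?_ _
      have h5 : ((matH (lift x) l j - matH (lift y) l j : ℤ) : ZMod 3) = 0 := by
        push_cast
        rw [hF2, sub_self]
      rw [Matrix.sub_apply]
      exact_mod_cast (ZMod.intCast_zmod_eq_zero_iff_dvd _ 3).1 h5
    have hmem : x * y⁻¹ ∈ T := T.mul_mem hx (T.inv_mem hy)
    obtain ⟨k, hk, hk1⟩ := hT _ hmem
    have hcl : cls (lift x * (lift y)⁻¹) = x * y⁻¹ := by
      rw [map_mul, map_inv, hlift, hlift]
    have := tors_triv hg M hop hmat k hk (by rw [hcl, hk1])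
    rw [hcl] at this
    exact mul_inv_eq_one.1 this
  exact Set.Finite.of_finite_image (f := F) (Set.toFinite _) (fun x hx y hy h => key x hx y hy h)

end Pool.Agent.Work.MP_d3656f_al
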